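import Pool.Agent.Y530.TB.Stm

/-!
# One-extension of a body
-/

set_option autoImplicit false

namespace Pool.Agent.Y614.TB

open Finset Module Pool.Agent.W824.BJ Pool.Agent.Y530.BB Pool.Agent.Y530.TB

/-- the six numbers -/
noncomputable def R6 {V B : Type} (y a c : B) (A Bb Cc : Fin 3 → V) :
    (B → Fin 6 → PK V) →ₗ[PK V] ((Fin 3 → PK V) × (Fin 3 → PK V)) :=
  LinearMap.prod
    (LinearMap.pi fun k => (prL (gx V (A k)) (gx V (Bb k))).comp
      (LinearMap.proj (R := PK V) (φ := fun _ : B => Fin 6 → PK V) y -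
        LinearMap.proj (R := PK V) (φ := fun _ : B => Fin 6 → PK V) a))
    (LinearMap.pi fun k => (prL (gx V (A k) + gx V (Bb k)) (gx V (Cc k))).comp
      (LinearMap.proj (R := PK V) (φ := fun _ : B => Fin 6 → PK V) y -
        LinearMap.proj (R := PK V) (φ := fun _ : B => Fin 6 → PK V) c))

lemma mem_ker_R6 {V B : Type} {y a c : B} {A Bb Cc : Fin 3 → V} {n : B → Fin 6 → PK V} :
    n ∈ LinearMap.ker (R6 y a c A Bb Cc) ↔
      (∀ k, pr (n y - n a) (gx V (A k)) (gx V (Bb k)) = 0) ∧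
      ∀ k, pr (n y - n c) (gx V (A k) + gx V (Bb k)) (gx V (Cc k)) = 0 := by
  rw [LinearMap.mem_ker]
  constructor
  · intro h
    have h1 := congrArg Prod.fst h
    have h2 := congrArg Prod.snd h
    exact ⟨fun k => congrFun h1 k, fun k => congrFun h2 k⟩
  · rintro ⟨h1, h2⟩
    apply Prod.ext
    · funext k
      exact h1 k
    · funext k
      exact h2 k

theorem t (h : S_SIX) : S_EXT := by
  classical
  intro V B _ _ β χ y a b c F0 fa fb fc A Bb Cc hya hyb hyc hab hac hbc hF0 hfa hfb hfc hca hcb hcc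
    hA hB hC iA iB iC
  set F := F0 ∪ (br3 fa A ∪ (br3 fb Bb ∪ br3 fc Cc)) with hF
  let z : V → Fin 4 → PK V := fun v =>
    if β v = y then gx V (A (χ v)) + gx V (Bb (χ v)) else gx V v
  have hz1 : ∀ v, β v ≠ y → z v = gx V v := fun v hv => if_neg hv
  have hz2 : ∀ v k, β v = y → χ v = k → z v = gx V (A k) + gx V (Bb k) := by
    intro v k hv hk
    show (if β v = y then gx V (A (χ v)) + gx V (Bb (χ v)) else gx V v) = _
    rw [if_pos hv, hk]
  set M := BM β (F0 ∪ br3 A Bb) (gx V) with hM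
  have hgM : gb β (F0 ∪ br3 A Bb) = finrank (PK V) M := rfl
  -- the space of motions
  have c1 : BM β F z ≤ M ⊓ LinearMap.ker (R6 y a c A Bb Cc) := by
    intro n hn
    rw [mem_bm] at hn
    have r1 : ∀ k, pr (n y - n a) (gx V (A k)) (gx V (Bb k)) = 0 := by
      intro k
      have h1 := hn (fa k) (A k) (by
        rw [hF]
        exact mem_union_right _ (mem_union_left _ (mem_br3.2 ⟨k, rfl⟩)))
      rw [hfa, hA, hz2 (fa k) k (hfa k) (hca k), hz1 (A k) (by rw [hA]; exact hya.symm),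
        pr_add_left, pr_self, zero_add, pr_swap, neg_eq_zero] at h1
      exact h1
    have r2 : ∀ k, pr (n y - n b) (gx V (A k)) (gx V (Bb k)) = 0 := by
      intro k
      have h1 := hn (fb k) (Bb k) (by
        rw [hF]
        exact mem_union_right _ (mem_union_right _ (mem_union_left _ (mem_br3.2 ⟨k, rfl⟩))))
      rw [hfb, hB, hz2 (fb k) k (hfb k) (hcb k), hz1 (Bb k) (by rw [hB]; exact hyb.symm),
        pr_add_left, pr_self, add_zero] at h1
      exact h1
    have r3 : ∀ k, pr (n y - n c) (gx V (A k) + gx V (Bb k)) (gx V (Cc k)) = 0 := by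
      intro k
      have h1 := hn (fc k) (Cc k) (by
        rw [hF]
        exact mem_union_right _ (mem_union_right _ (mem_union_right _ (mem_br3.2 ⟨k, rfl⟩))))
      rw [hfc, hC, hz2 (fc k) k (hfc k) (hcc k), hz1 (Cc k) (by rw [hC]; exact hyc.symm)] at h1
      exact h1
    have r4 : ∀ k, pr (n a - n b) (gx V (A k)) (gx V (Bb k)) = 0 := by
      intro k
      have e1 := r1 k
      have e2 := r2 k
      rw [pr_sub] at e1 e2 ⊢
      linear_combination e2 - e1
    refine ⟨?_, mem_ker_R6.2 ⟨r1, r3⟩⟩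
    show n ∈ M
    rw [hM, mem_bm]
    intro u v huv
    rcases mem_union.1 huv with h1 | h1
    · have h2 := hn u v (by rw [hF]; exact mem_union_left _ h1)
      rwa [hz1 u (hF0 u v h1).1, hz1 v (hF0 u v h1).2] at h2
    · obtain ⟨k, hk⟩ := mem_br3.1 h1
      rcases Sym2.eq_iff.1 hk with ⟨rfl, rfl⟩ | ⟨rfl, rfl⟩
      · rw [hA, hB]
        exact r4 k
      · rw [hA, hB, pr_symm]
        exact r4 k
  -- a complement
  let sg : (Fin 6 → PK V) →ₗ[PK V] (B → Fin 6 → PK V) :=
    LinearMap.single (PK V) (fun _ : B => Fin 6 → PK V) y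
  have sg_y : ∀ T, sg T y = T := fun T => by
    show (Pi.single y T : B → Fin 6 → PK V) y = T
    simp
  have sg_ne : ∀ T b', b' ≠ y → sg T b' = 0 := fun T b' hb' => by
    show (Pi.single y T : B → Fin 6 → PK V) b' = 0
    simp [hb']
  have hinj : Function.Injective sg := by
    intro T T' hT
    rw [← sg_y T, hT, sg_y]
  have hW : finrank (PK V) (LinearMap.range sg) = 6 := by
    rw [LinearMap.finrank_range_of_inj hinj]
    simp
  have hWM : LinearMap.range sg ≤ M := by
    rintro _ ⟨T, rfl⟩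
    rw [hM, mem_bm]
    intro u v huv
    have huy : β u ≠ y ∧ β v ≠ y := by
      rcases mem_union.1 huv with h1 | h1
      · exact hF0 u v h1
      · obtain ⟨k, hk⟩ := mem_br3.1 h1
        rcases Sym2.eq_iff.1 hk with ⟨rfl, rfl⟩ | ⟨rfl, rfl⟩
        · rw [hA, hB]
          exact ⟨hya.symm, hyb.symm⟩
        · rw [hA, hB]
          exact ⟨hyb.symm, hya.symm⟩
    rw [sg_ne T _ huy.1, sg_ne T _ huy.2, sub_zero, pr_zero]
  have hWR : (M ⊓ LinearMap.ker (R6 y a c A Bb Cc)) ⊓ LinearMap.range sg = ⊥ := by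
    rw [eq_bot_iff]
    rintro n ⟨⟨-, hn⟩, T, rfl⟩
    have hn' := mem_ker_R6.1 hn
    rw [sg_y, sg_ne T a hya.symm, sg_ne T c hyc.symm, sub_zero] at hn'
    have hT := h V A Bb Cc iA iB iC
      (fun k l hkl => hab (by rw [← hA k, hkl, hB]))
      (fun k l hkl => hac (by rw [← hA k, hkl, hC]))
      (fun k l hkl => hbc (by rw [← hB k, hkl, hC])) T hn'.1 hn'.2
    rw [hT, map_zero]
    exact Submodule.zero_mem _
  have h2 := Submodule.finrank_sup_add_finrank_inf_eq
    (M ⊓ LinearMap.ker (R6 y a c A Bb Cc)) (LinearMap.range sg)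
  rw [hWR, finrank_bot, add_zero, hW] at h2
  have h3 : finrank (PK V) ((M ⊓ LinearMap.ker (R6 y a c A Bb Cc)) ⊔ LinearMap.range sg :
      Submodule (PK V) (B → Fin 6 → PK V)) ≤ finrank (PK V) M :=
    Submodule.finrank_mono (sup_le inf_le_left hWM)
  have h4 := Submodule.finrank_mono c1
  have h5 := gb_le β F z
  rw [hgM]
  omega

end Pool.Agent.Y614.TB
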